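import Pool.Agent.H867.FT.Gen2

/-!
# MP_7dd379_ag: the double root case
-/

set_option autoImplicit false

namespace Pool.Agent.H157.FTDBL

theorem norm_gen {L K : Type} [Field L] [Field K] [Algebra L K]
    (h3 : Module.finrank L K = 3) (x : K) (p q r : L)
    (hx : x ^ 3 = algebraMap L K p + algebraMap L K q * x + algebraMap L K r * x ^ 2)
    (hind : ∀ l₀ l₁ l₂ : L, algebraMap L K l₀ + algebraMap L K l₁ * x +
      algebraMap L K l₂ * x ^ 2 = 0 → l₀ = 0 ∧ l₁ = 0 ∧ l₂ = 0) :
    Algebra.norm L x = p := by
  have hli : LinearIndependent L ![(1 : K), x, x ^ 2] := by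
    rw [Fintype.linearIndependent_iff]
    intro g hg
    rw [Fin.sum_univ_three] at hg
    have h1 : algebraMap L K (g 0) + algebraMap L K (g 1) * x + algebraMap L K (g 2) * x ^ 2 = 0 := by
      have h2 : g 0 • (1 : K) + g 1 • x + g 2 • x ^ 2 = 0 := hg
      rw [Algebra.smul_def, Algebra.smul_def, Algebra.smul_def, mul_one] at h2
      exact h2
    obtain ⟨a0, a1, a2⟩ := hind _ _ _ h1
    intro i
    fin_cases i
    · exact a0
    · exact a1
    · exact a2
  have hcard : Fintype.card (Fin 3) = Module.finrank L K := by rw [h3, Fintype.card_fin]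
  obtain ⟨b, hb⟩ : ∃ b : Module.Basis (Fin 3) L K, ⇑b = ![(1 : K), x, x ^ 2] :=
    ⟨basisOfLinearIndependentOfCardEqFinrank hli hcard,
      coe_basisOfLinearIndependentOfCardEqFinrank hli hcard⟩
  have hb0 : b 0 = 1 := by rw [hb]; rfl
  have hb1 : b 1 = x := by rw [hb]; rfl
  have hb2 : b 2 = x ^ 2 := by rw [hb]; rfl
  have c0 : x * b 0 = b 1 := by rw [hb0, hb1, mul_one]
  have c1 : x * b 1 = b 2 := by rw [hb2, hb1, pow_two]
  have c2 : x * b 2 = p • b 0 + q • b 1 + r • b 2 := by
    rw [hb2, hb1, hb0, Algebra.smul_def, Algebra.smul_def, Algebra.smul_def, mul_one, ← hx]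
    ring
  rw [Algebra.norm_eq_matrix_det b x]
  have hM : Algebra.leftMulMatrix b x = !![0, 0, p; 1, 0, q; 0, 1, r] := by
    ext i j
    rw [Algebra.leftMulMatrix_eq_repr_mul]
    fin_cases j
    · change (b.repr (x * b 0)) i = _
      rw [c0, Module.Basis.repr_self]
      fin_cases i <;> simp
    · change (b.repr (x * b 1)) i = _
      rw [c1, Module.Basis.repr_self]
      fin_cases i <;> simp
    · change (b.repr (x * b 2)) i = _
      rw [c2, map_add, map_add, map_smul, map_smul, map_smul, Module.Basis.repr_self,
        Module.Basis.repr_self, Module.Basis.repr_self]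
      fin_cases i <;> simp
  rw [hM, Matrix.det_fin_three]
  simp

theorem dbl : Pool.Agent.H867.FT.S_DBL := by
  intro V L W K _ _ _ _ _ _ _ _ _ _ _ _ _ _ _ _ _ _ _ π a' b' c' d x h3 hπ ha' heq hind
  have hVW : Algebra.IsIntegral V W := IsIntegralClosure.isIntegral_algebra V K
  have hmk : ∀ (y : K) (s t : W), y ^ 2 = algebraMap W K s * y + algebraMap W K t →
      ∃ w : W, algebraMap W K w = y := by
    intro y s t hy
    have h1 : IsIntegral W y := by
      refine ⟨Polynomial.X ^ 2 - (Polynomial.C s * Polynomial.X + Polynomial.C t), ?_, ?_⟩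
      · refine Polynomial.monic_X_pow_sub ?_
        exact lt_of_le_of_lt Polynomial.degree_linear_le (by norm_num)
      · rw [Polynomial.eval₂_sub, Polynomial.eval₂_add, Polynomial.eval₂_mul,
          Polynomial.eval₂_pow, Polynomial.eval₂_X, Polynomial.eval₂_C, Polynomial.eval₂_C, hy,
          sub_self]
    have h2 : IsIntegral V y := isIntegral_trans (R := V) (A := W) y h1
    exact (IsIntegralClosure.isIntegral_iff (R := V) (A := W) (B := K)).1 h2
  have hπ0 : π ≠ 0 := hπ.ne_zero
  have hinj : Function.Injective (algebraMap W K) := IsFractionRing.injective W K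
  have hinjV : Function.Injective (algebraMap V L) := IsFractionRing.injective V L
  have hVK : ∀ v : V, algebraMap V K v = algebraMap W K (algebraMap V W v) :=
    fun v => IsScalarTower.algebraMap_apply V W K v
  have hVLK : ∀ v : V, algebraMap V K v = algebraMap L K (algebraMap V L v) :=
    fun v => IsScalarTower.algebraMap_apply V L K v
  obtain ⟨p, hp⟩ : ∃ p : K, p = algebraMap V K π := ⟨_, rfl⟩
  have hp0 : p ≠ 0 := by
    rw [hp, hVLK]
    intro h
    have h1 : algebraMap V L π = 0 := (algebraMap L K).injective (h.trans (map_zero _).symm)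
    exact hπ0 (hinjV (h1.trans (map_zero _).symm))
  obtain ⟨θ, hθ⟩ : ∃ θ : W, θ = algebraMap V W (π * a') * x ^ 2 + algebraMap V W (π * b') * x +
      algebraMap V W (π ^ 2 * c') := ⟨_, rfl⟩
  have hθx : θ * x = -algebraMap V W d := by
    rw [hθ]
    linear_combination heq
  have hθ2 : θ ^ 2 = algebraMap V W (π ^ 2 * c') * θ - algebraMap V W (π * b') * algebraMap V W d -
      algebraMap V W (π * a') * algebraMap V W d * x := by
    have h1 : θ ^ 2 = (algebraMap V W (π * a') * x + algebraMap V W (π * b')) * (θ * x) +
        algebraMap V W (π ^ 2 * c') * θ := by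
      have h2 : θ ^ 2 = θ * (algebraMap V W (π * a') * x ^ 2 + algebraMap V W (π * b') * x +
        algebraMap V W (π ^ 2 * c')) := by rw [← hθ, pow_two]
      rw [h2]
      ring
    rw [h1, hθx]
    ring
  refine ⟨?_, ?_⟩
  · rintro ⟨d3, rfl⟩
    obtain ⟨u, hu⟩ := hmk (algebraMap W K θ / p ^ 2) (algebraMap V W c')
      (-(algebraMap V W (b' * d3)) - algebraMap V W (a' * d3) * x) (by
        rw [div_pow, div_eq_iff (pow_ne_zero 2 (pow_ne_zero 2 hp0)), ← map_pow, hθ2]
        simp only [map_sub, map_neg, map_mul, map_pow, ← hVK, ← hp]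
        field_simp
        ring)
    refine ⟨u, hinj ?_⟩
    rw [← hθ, map_mul, hu, map_pow, ← hVK, ← hp, mul_div_cancel₀]
    exact pow_ne_zero 2 hp0
  · intro d' hd' hd
    subst hd
    obtain ⟨u, hu⟩ := hmk (algebraMap W K θ / p) (algebraMap V W (π * c'))
      (algebraMap V W π * (-(algebraMap V W (b' * d')) - algebraMap V W (a' * d') * x)) (by
        rw [div_pow, div_eq_iff (pow_ne_zero 2 hp0), ← map_pow, hθ2]
        simp only [map_sub, map_neg, map_mul, map_pow, ← hVK, ← hp]
        field_simp
        ring)
    have hpu : θ = algebraMap V W π * u := by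
      refine hinj ?_
      rw [map_mul, hu, ← hVK, ← hp, mul_div_cancel₀]
      exact hp0
    have hu2 : u ^ 2 = algebraMap V W π * (algebraMap V W c' * u - algebraMap V W (b' * d') -
        algebraMap V W (a' * d') * x) := by
      have hπW : algebraMap V W π ≠ 0 := by
        intro h
        apply hp0
        rw [hp, hVK, h, map_zero]
      have h1 : algebraMap V W π ^ 2 * u ^ 2 = algebraMap V W π ^ 2 *
          (algebraMap V W π * (algebraMap V W c' * u - algebraMap V W (b' * d') -
            algebraMap V W (a' * d') * x)) := by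
        have h2 := hθ2
        rw [hpu] at h2
        simp only [map_mul, map_pow] at h2 ⊢
        linear_combination h2
      exact mul_left_cancel₀ (pow_ne_zero 2 hπW) h1
    refine ⟨u, a' * d' ^ 2, by rw [← hθ, hpu], ?_, ha'.mul (hd'.pow 2), ?_⟩
    · intro 𝔔 h𝔔 h𝔔0
      have hmem : algebraMap V W π ∈ 𝔔 := by
        have h1 : Ideal.comap (algebraMap V W) 𝔔 ≠ ⊥ := Ideal.IsIntegral.comap_ne_bot V h𝔔0
        have h2 : (Ideal.comap (algebraMap V W) 𝔔).IsPrime := Ideal.comap_isPrime _ _
        have h4 : (Ideal.comap (algebraMap V W) 𝔔).IsMaximal :=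
          Ring.DimensionLEOne.maximalOfPrime h1 h2
        have h5 := IsLocalRing.eq_maximalIdeal h4
        have h6 : π ∈ Ideal.comap (algebraMap V W) 𝔔 := by
          rw [h5, (IsDiscreteValuationRing.irreducible_iff_uniformizer π).1 hπ]
          exact Ideal.mem_span_singleton_self π
        exact h6
      refine h𝔔.mem_of_pow_mem 2 ?_
      rw [hu2]
      exact Ideal.mul_mem_right _ _ hmem
    · have ha0 : algebraMap V L (π * a') ≠ 0 := by
        intro h
        have h1 := hinjV (h.trans (map_zero _).symm)
        exact mul_ne_zero hπ0 ha'.ne_zero h1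
      have hN : Algebra.norm L (algebraMap W K x) =
          -(algebraMap V L (π ^ 2 * d') / algebraMap V L (π * a')) := by
        refine norm_gen h3 (algebraMap W K x) _
          (-(algebraMap V L (π ^ 2 * c') / algebraMap V L (π * a')))
          (-(algebraMap V L (π * b') / algebraMap V L (π * a'))) ?_ hind
        have h1 : algebraMap L K (algebraMap V L (π * a')) * algebraMap W K x ^ 3 +
            algebraMap L K (algebraMap V L (π * b')) * algebraMap W K x ^ 2 +
            algebraMap L K (algebraMap V L (π ^ 2 * c')) * algebraMap W K x +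
            algebraMap L K (algebraMap V L (π ^ 2 * d')) = 0 := by
          have h2 := congrArg (algebraMap W K) heq
          rw [map_zero] at h2
          rw [← hVLK, ← hVLK, ← hVLK, ← hVLK, hVK, hVK, hVK, hVK, ← h2]
          simp only [map_add, map_mul, map_pow]
        have ha0K : algebraMap L K (algebraMap V L (π * a')) ≠ 0 := by
          intro h
          exact ha0 ((algebraMap L K).injective (h.trans (map_zero _).symm))
        simp only [map_neg, map_div₀]
        field_simp
        linear_combination h1
      have hNθ : Algebra.norm L (algebraMap W K θ) * Algebra.norm L (algebraMap W K x) =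
          -(algebraMap V L (π ^ 2 * d')) ^ 3 := by
        rw [← map_mul, ← map_mul, hθx, map_neg, ← hVK, hVLK, ← map_neg, Algebra.norm_algebraMap, h3]
        ring
      have hNu : Algebra.norm L (algebraMap W K θ) =
          algebraMap V L π ^ 3 * Algebra.norm L (algebraMap W K u) := by
        rw [hpu, map_mul, map_mul, ← hVK, hVLK, Algebra.norm_algebraMap, h3]
      have hπL : algebraMap V L π ≠ 0 := by
        intro h
        exact hπ0 (hinjV (h.trans (map_zero _).symm))
      have hd'L : algebraMap V L d' ≠ 0 := by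
        intro h
        exact hd'.ne_zero (hinjV (h.trans (map_zero _).symm))
      have ha'L : algebraMap V L a' ≠ 0 := by
        intro h
        exact ha'.ne_zero (hinjV (h.trans (map_zero _).symm))
      rw [hN, hNu, mul_neg, neg_inj, mul_div_assoc', div_eq_iff ha0] at hNθ
      simp only [map_mul, map_pow] at hNθ ⊢
      refine mul_left_cancel₀ (mul_ne_zero (pow_ne_zero 5 hπL) hd'L) ?_
      linear_combination hNθ

end Pool.Agent.H157.FTDBL
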