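import Pool.Agent.H770.GS.TB

/-!
# Project TB, subtask S_V: convexity for small `s`
-/

set_option autoImplicit false

open MeasureTheory Set intervalIntegral Filter Topology

namespace Pool.Agent.H157.TBV

open Pool.Agent.H770.GS

theorem nLd_eq (r x : ℝ) : nLd r x = fL r x * (2 - x ^ 2) / 4 + eL r x * (r - 3 * x / 2) := by
  have e : Real.exp (-x ^ 2 / 4) * Real.exp (-(r - x / 2) ^ 2) = eL r x := by
    unfold eL
    rw [← Real.exp_add]
    congr 1
    ring
  unfold nLd nL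
  rw [e]
  ring

theorem nL_eq (r x : ℝ) : nL r x = x / 2 * fL r x + eL r x := by
  have e : Real.exp (-x ^ 2 / 4) * Real.exp (-(r - x / 2) ^ 2) = eL r x := by
    unfold eL
    rw [← Real.exp_add]
    congr 1
    ring
  unfold nL
  rw [e]

theorem YY_eq (r σ x : ℝ) : YY r σ x = 2 * (1 - σ) * nL r x - (2 + σ) * x * nLd r x := by
  rw [nL_eq, nLd_eq]
  unfold YY
  ring

theorem I2_nonneg {q : ℝ} (hq : 0 ≤ q) : 0 ≤ I2 q := by
  refine le_trans ?_ (I2_lower hq)
  have := Real.exp_pos (-q ^ 2)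
  positivity

theorem I2_nonpos {q : ℝ} (hq : q ≤ 0) : I2 q ≤ 0 := by
  have h : I2 q = -I2 (-q) := by
    unfold I2
    rw [neg_neg, intervalIntegral.integral_symm]
  rw [h]
  have := I2_nonneg (neg_nonneg.2 hq)
  linarith

theorem fL_nonpos {r x : ℝ} (hx : 2 * r ≤ x) : fL r x ≤ 0 :=
  mul_nonpos_of_nonneg_of_nonpos (Real.exp_pos _).le (I2_nonpos (by linarith))

theorem YY_nonneg {r l σ x : ℝ} (hr2 : r ^ 2 ≤ 9 / 4) (hl : 0 < l)
    (hY : 0 ≤ YY r (l ^ 2) x) (hx0 : 0 ≤ x) (hx : x ≤ 2 * r) (hσ0 : 0 ≤ σ) (hσ : σ ≤ l ^ 2) :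
    0 ≤ YY r σ x := by
  have h0 : 0 ≤ YY r 0 x := by
    unfold YY
    have e1 := fL_nonneg hx
    have e2 : 0 < eL r x := Real.exp_pos _
    have e3 : 0 ≤ 2 - 2 * r * x + 3 * x ^ 2 := by nlinarith [sq_nonneg (3 * x - r)]
    have e4 : 0 ≤ x * fL r x * (x ^ 2 / 2 - 0 * (3 / 2 - x ^ 2 / 4)) := by
      have : x ^ 2 / 2 - 0 * (3 / 2 - x ^ 2 / 4) = x ^ 2 / 2 := by ring
      rw [this]
      positivity
    have e5 : 0 ≤ eL r x * (2 - 2 * r * x + 3 * x ^ 2 - 0 * (2 + r * x - 3 * x ^ 2 / 2)) := by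
      refine mul_nonneg e2.le ?_
      linarith
    linarith
  have hl2 : 0 < l ^ 2 := by positivity
  have e : l ^ 2 * YY r σ x = (l ^ 2 - σ) * YY r 0 x + σ * YY r (l ^ 2) x := by
    unfold YY
    ring
  have e' : 0 ≤ l ^ 2 * YY r σ x := by
    rw [e]
    exact add_nonneg (mul_nonneg (by linarith) h0) (mul_nonneg hσ0 hY)
  exact (mul_nonneg_iff_of_pos_left hl2).1 e'

/-- the derivative of `μ fL r (√(μ²-2) y)` as a function of `√(μ²-2)` -/
noncomputable def Dd (r y t : ℝ) : ℝ :=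
  fL r (t * y) - (1 + 2 / t ^ 2) * (t * y) * nL r (t * y)

theorem Dd_deriv (r y : ℝ) {t : ℝ} (ht : t ≠ 0) :
    HasDerivAt (Dd r y) (y / t ^ 2 * YY r (t ^ 2) (t * y)) t := by
  have h1 : HasDerivAt (fun t : ℝ => t * y) y t := by
    simpa using (hasDerivAt_id t).mul_const y
  have h2 : HasDerivAt (fun t : ℝ => fL r (t * y)) (-nL r (t * y) * y) t := by
    have h := (fL_deriv r (t * y)).comp t h1
    exact h
  have h3 : HasDerivAt (fun t : ℝ => nL r (t * y)) (nLd r (t * y) * y) t := by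
    have h := (nL_deriv r (t * y)).comp t h1
    exact h
  have h4 : HasDerivAt (fun t : ℝ => 1 + 2 / t ^ 2) (-4 / t ^ 3) t := by
    have h5 : HasDerivAt (fun t : ℝ => t ^ 2) (2 * t) t := by
      simpa using hasDerivAt_pow 2 t
    have h6 := ((h5.fun_inv (pow_ne_zero 2 ht)).const_mul 2).const_add 1
    have e : (fun t : ℝ => 1 + 2 * (t ^ 2)⁻¹) = fun t : ℝ => 1 + 2 / t ^ 2 := by
      funext t
      rw [div_eq_mul_inv]
    rw [e] at h6
    refine h6.congr_deriv ?_
    field_simp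
    ring
  unfold Dd
  refine (h2.fun_sub ((h4.fun_mul h1).fun_mul h3)).congr_deriv ?_
  rw [YY_eq]
  field_simp
  ring

theorem Dd_mono {r l y t' : ℝ} (hr2 : r ^ 2 ≤ 9 / 4) (hl : 0 < l)
    (hY : ∀ x, 0 ≤ x → x ≤ 2 * r → 0 ≤ YY r (l ^ 2) x) (hy : 0 ≤ y)
    (htl : t' ≤ l) (hty : t' * y ≤ 2 * r) : MonotoneOn (Dd r y) (Ioc 0 t') := by
  refine monotoneOn_of_deriv_nonneg (convex_Ioc 0 t') ?_ ?_ ?_
  · exact fun t ht => (Dd_deriv r y ht.1.ne').continuousAt.continuousWithinAt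
  · intro t ht
    rw [interior_Ioc] at ht
    exact (Dd_deriv r y ht.1.ne').differentiableAt.differentiableWithinAt
  · intro t ht
    rw [interior_Ioc] at ht
    rw [(Dd_deriv r y ht.1.ne').deriv]
    have hx0 : 0 ≤ t * y := mul_nonneg ht.1.le hy
    have hx : t * y ≤ 2 * r := (mul_le_mul_of_nonneg_right ht.2.le hy).trans hty
    have hs : t ^ 2 ≤ l ^ 2 := by
      have := ht.2
      have := ht.1
      nlinarith
    refine mul_nonneg (div_nonneg hy (sq_nonneg t)) ?_
    exact YY_nonneg hr2 hl (hY _ hx0 hx) hx0 hx (sq_nonneg t) hs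

theorem ff_deriv (r y : ℝ) {m : ℝ} (hm : Real.sqrt 2 < m) :
    HasDerivAt (fun m : ℝ => m * fL r (Real.sqrt (m ^ 2 - 2) * y))
      (Dd r y (Real.sqrt (m ^ 2 - 2))) m := by
  have hm0 : 0 < m := (Real.sqrt_nonneg 2).trans_lt hm
  have hm2 : 0 < m ^ 2 - 2 := by
    have := (Real.sqrt_lt' hm0).1 hm
    linarith
  have h1 : HasDerivAt (fun m : ℝ => m ^ 2 - 2) (2 * m) m := by
    simpa using (hasDerivAt_pow 2 m).sub_const 2
  have h2 := h1.sqrt hm2.ne'
  have ht : 0 < Real.sqrt (m ^ 2 - 2) := Real.sqrt_pos.2 hm2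
  have h3 : HasDerivAt (fun m : ℝ => fL r (Real.sqrt (m ^ 2 - 2) * y))
      (-nL r (Real.sqrt (m ^ 2 - 2) * y) * (2 * m / (2 * Real.sqrt (m ^ 2 - 2)) * y)) m := by
    have h := (fL_deriv r (Real.sqrt (m ^ 2 - 2) * y)).comp m (h2.mul_const y)
    exact h
  refine ((hasDerivAt_id m).fun_mul h3).congr_deriv ?_
  unfold Dd
  have e : m ^ 2 = Real.sqrt (m ^ 2 - 2) ^ 2 + 2 := by
    rw [Real.sq_sqrt hm2.le]
    ring
  simp only [id]
  generalize Real.sqrt (m ^ 2 - 2) = t at ht e ⊢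
  have ht' : t ≠ 0 := ht.ne'
  field_simp
  rw [e]
  ring

theorem ff_conv {r l y t' : ℝ} (hr2 : r ^ 2 ≤ 9 / 4) (hl : 0 < l)
    (hY : ∀ x, 0 ≤ x → x ≤ 2 * r → 0 ≤ YY r (l ^ 2) x) (hy : 0 ≤ y)
    (ht0 : 0 < t') (htl : t' ≤ l) (hty : t' * y ≤ 2 * r) :
    ConvexOn ℝ (Icc (Real.sqrt 2) (Real.sqrt (2 + t' ^ 2)))
      (fun m : ℝ => m * fL r (Real.sqrt (m ^ 2 - 2) * y)) := by
  refine MonotoneOn.convexOn_of_deriv (convex_Icc _ _) ?_ ?_ ?_
  · have := fL_cont r
    refine Continuous.continuousOn ?_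
    fun_prop
  · intro m hm
    rw [interior_Icc] at hm
    exact (ff_deriv r y hm.1).differentiableAt.differentiableWithinAt
  · intro m hm m' hm' hmm
    rw [interior_Icc] at hm hm'
    rw [(ff_deriv r y hm.1).deriv, (ff_deriv r y hm'.1).deriv]
    have key : ∀ m : ℝ, m ∈ Ioo (Real.sqrt 2) (Real.sqrt (2 + t' ^ 2)) →
        Real.sqrt (m ^ 2 - 2) ∈ Ioc 0 t' := by
      intro m hm
      have hm0 : 0 < m := (Real.sqrt_nonneg 2).trans_lt hm.1
      have h1 := (Real.sqrt_lt' hm0).1 hm.1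
      have h2 : m ^ 2 < 2 + t' ^ 2 := (Real.lt_sqrt hm0.le).1 hm.2
      refine ⟨Real.sqrt_pos.2 (by linarith), ?_⟩
      rw [Real.sqrt_le_left ht0.le]
      linarith
    refine Dd_mono hr2 hl hY hy htl hty (key m hm) (key m' hm') ?_
    apply Real.sqrt_le_sqrt
    have hm0 : 0 < m := (Real.sqrt_nonneg 2).trans_lt hm.1
    nlinarith

theorem pt_cont (r : ℝ) : Continuous (pt r) := by
  unfold pt
  have := fL_cont r
  fun_prop

theorem pt_nonneg (r x : ℝ) : 0 ≤ pt r x := le_max_right _ _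

theorem pt_in {r x : ℝ} (h0 : 0 ≤ x) (hx : x ≤ 2 * r) : pt r x = fL r x := by
  unfold pt
  rw [abs_of_nonneg h0, max_eq_left (fL_nonneg hx)]

theorem pt_out {r x : ℝ} (h0 : 0 ≤ x) (hx : 2 * r ≤ x) : pt r x = 0 := by
  unfold pt
  rw [abs_of_nonneg h0, max_eq_right (fL_nonpos hx)]

theorem pt_abs (r c z : ℝ) (hc : 0 ≤ c) : pt r (c * z) = pt r (c * |z|) := by
  unfold pt
  rw [abs_mul, abs_mul, abs_abs, abs_of_nonneg hc]

/-- the value of a convex function at a point between the ends -/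
theorem conv_use {f : ℝ → ℝ} {a b m : ℝ} (hf : ConvexOn ℝ (Icc a b) f) (hab : a < b)
    (ha : a ≤ m) (hb : m ≤ b) :
    f m ≤ (b - m) / (b - a) * f a + (1 - (b - m) / (b - a)) * f b := by
  have hd : 0 < b - a := by linarith
  have h1 : 0 ≤ (b - m) / (b - a) := div_nonneg (by linarith) hd.le
  have h2 : 0 ≤ 1 - (b - m) / (b - a) := by
    rw [sub_nonneg, div_le_one hd]
    linarith
  have h := hf.2 (left_mem_Icc.2 hab.le) (right_mem_Icc.2 hab.le) h1 h2 (by ring)
  have e : ((b - m) / (b - a)) • a + (1 - (b - m) / (b - a)) • b = m := by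
    simp only [smul_eq_mul]
    have hd' := hd.ne'
    field_simp
    ring
  rw [e] at h
  simpa only [smul_eq_mul] using h

/-- the pointwise inequality -/
theorem point {r l s : ℝ} (hr : 0 < r) (hr2 : r ^ 2 ≤ 9 / 4) (hl : 0 < l)
    (hY : ∀ x, 0 ≤ x → x ≤ 2 * r → 0 ≤ YY r (l ^ 2) x) (hs0 : 0 ≤ s) (hs : s ≤ l ^ 2)
    (z : ℝ) :
    Real.sqrt (2 + s) * pt r (Real.sqrt s * z) ≤
      (Real.sqrt (2 + l ^ 2) - Real.sqrt (2 + s)) / (Real.sqrt (2 + l ^ 2) - Real.sqrt 2) *
        (Real.sqrt 2 * pt r 0) +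
      (1 - (Real.sqrt (2 + l ^ 2) - Real.sqrt (2 + s)) /
        (Real.sqrt (2 + l ^ 2) - Real.sqrt 2)) *
        (Real.sqrt (2 + l ^ 2) * pt r (l * z)) := by
  rw [pt_abs r (Real.sqrt s) z (Real.sqrt_nonneg s), pt_abs r l z hl.le]
  obtain ⟨y, hy⟩ : ∃ y, y = |z| := ⟨_, rfl⟩
  have hy0 : 0 ≤ y := by rw [hy]; exact abs_nonneg z
  rw [← hy]
  have hl2 : 0 < l ^ 2 := by positivity
  have hsl : Real.sqrt s ≤ l := by
    rw [Real.sqrt_le_left hl.le]
    exact hs
  have hms : Real.sqrt 2 ≤ Real.sqrt (2 + s) := Real.sqrt_le_sqrt (by linarith)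
  have hmM : Real.sqrt (2 + s) ≤ Real.sqrt (2 + l ^ 2) := Real.sqrt_le_sqrt (by linarith)
  have hM : Real.sqrt 2 < Real.sqrt (2 + l ^ 2) := Real.sqrt_lt_sqrt (by norm_num) (by linarith)
  have e0 : ∀ t : ℝ, 0 ≤ t → Real.sqrt (Real.sqrt (2 + t) ^ 2 - 2) = Real.sqrt t := by
    intro t ht
    rw [Real.sq_sqrt (by linarith)]
    congr 1
    ring
  have e1 : Real.sqrt (Real.sqrt 2 ^ 2 - 2) = 0 := by
    rw [Real.sq_sqrt (by norm_num), sub_self, Real.sqrt_zero]
  have e2 : Real.sqrt (l ^ 2) = l := Real.sqrt_sq hl.le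
  by_cases hly : l * y ≤ 2 * r
  · have hc := ff_conv hr2 hl hY hy0 hl le_rfl hly
    have h := conv_use hc hM hms hmM
    simp only [e0 s hs0, e0 (l ^ 2) hl2.le, e1, e2, zero_mul] at h
    have hsy : Real.sqrt s * y ≤ 2 * r := (mul_le_mul_of_nonneg_right hsl hy0).trans hly
    rw [pt_in (mul_nonneg (Real.sqrt_nonneg s) hy0) hsy, pt_in le_rfl (by linarith),
      pt_in (mul_nonneg hl.le hy0) hly]
    exact h
  · push Not at hly
    rw [pt_out (mul_nonneg hl.le hy0) hly.le, mul_zero, mul_zero, add_zero]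
    have ht0 : 0 ≤ (Real.sqrt (2 + l ^ 2) - Real.sqrt (2 + s)) /
        (Real.sqrt (2 + l ^ 2) - Real.sqrt 2) :=
      div_nonneg (by linarith) (by linarith)
    have hy1 : 0 < y := by
      rcases hy0.lt_or_eq with h | h
      · exact h
      · rw [← h, mul_zero] at hly
        linarith
    by_cases hsy : 2 * r ≤ Real.sqrt s * y
    · rw [pt_out (mul_nonneg (Real.sqrt_nonneg s) hy0) hsy, mul_zero]
      exact mul_nonneg ht0 (mul_nonneg (Real.sqrt_nonneg 2) (pt_nonneg r 0))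
    · push Not at hsy
      -- the parameter of the end point
      obtain ⟨t, htdef⟩ : ∃ t, t = 2 * r / y := ⟨_, rfl⟩
      have hty : t * y = 2 * r := by
        rw [htdef, div_mul_cancel₀ _ hy1.ne']
      have ht : 0 < t := by
        rw [htdef]
        positivity
      have htl : t < l := by
        by_contra hcon
        push Not at hcon
        have := mul_le_mul_of_nonneg_right hcon hy0
        linarith
      have hst : Real.sqrt s < t := by
        by_contra hcon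
        push Not at hcon
        have := mul_le_mul_of_nonneg_right hcon hy0
        linarith
      have hst2 : s < t ^ 2 := by
        have := (Real.sqrt_lt' ht).1 hst
        exact this
      have hc := ff_conv hr2 hl hY hy0 ht htl.le hty.le
      have hb1 : Real.sqrt (2 + s) < Real.sqrt (2 + t ^ 2) :=
        Real.sqrt_lt_sqrt (by linarith) (by linarith)
      have hb2 : Real.sqrt (2 + t ^ 2) ≤ Real.sqrt (2 + l ^ 2) := by
        apply Real.sqrt_le_sqrt
        nlinarith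
      have h := conv_use hc (hms.trans_lt hb1) hms hb1.le
      have e3 : Real.sqrt (t ^ 2) = t := Real.sqrt_sq ht.le
      simp only [e0 s hs0, e0 (t ^ 2) (sq_nonneg t), e1, e3, zero_mul, hty, fL_end, mul_zero,
        add_zero] at h
      rw [pt_in (mul_nonneg (Real.sqrt_nonneg s) hy0) hsy.le, pt_in le_rfl (by linarith)]
      refine h.trans ?_
      refine mul_le_mul_of_nonneg_right ?_
        (mul_nonneg (Real.sqrt_nonneg 2) (fL_nonneg (by linarith)))
      rw [div_le_div_iff₀ (by linarith) (by linarith)]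
      nlinarith

theorem dens_mono {r : ℝ} (hr : 0 < r) (L : List ℝ) {g h : ℝ → ℝ} (hg : Continuous g)
    (hh : Continuous h) (hle : ∀ x, g x ≤ h x) : ∀ x, dens r L g x ≤ dens r L h x := by
  induction L with
  | nil => exact hle
  | cons b L ih =>
    intro x
    rw [dens_cons, dens_cons]
    unfold cv
    have c1 := dens_cont hg (r := r) L
    have c2 := dens_cont hh (r := r) L
    have c3 := W_cont
    refine intervalIntegral.integral_mono (by linarith) ?_ ?_ fun u => ?_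
    · refine Continuous.intervalIntegrable ?_ _ _
      fun_prop
    · refine Continuous.intervalIntegrable ?_ _ _
      fun_prop
    · exact mul_le_mul_of_nonneg_left (ih _) (W_pos u).le

theorem dens_lin {r : ℝ} (L : List ℝ) {g h : ℝ → ℝ} (hg : Continuous g)
    (hh : Continuous h) (α β : ℝ) : dens r L (fun x => α * g x + β * h x) =
      fun x => α * dens r L g x + β * dens r L h x := by
  induction L with
  | nil => rfl
  | cons b L ih =>
    rw [dens_cons, dens_cons, dens_cons, ih]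
    funext v
    unfold cv
    have c1 := dens_cont hg (r := r) L
    have c2 := dens_cont hh (r := r) L
    have c3 := W_cont
    rw [← intervalIntegral.integral_const_mul, ← intervalIntegral.integral_const_mul,
      ← intervalIntegral.integral_add]
    · refine intervalIntegral.integral_congr fun u _ => ?_
      simp only
      ring
    · refine Continuous.intervalIntegrable ?_ _ _
      fun_prop
    · refine Continuous.intervalIntegrable ?_ _ _
      fun_prop

theorem dens_smul' {r : ℝ} (L : List ℝ) {g : ℝ → ℝ} (hg : Continuous g)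
    (α : ℝ) (x : ℝ) : dens r L (fun x => α * g x) x = α * dens r L g x := by
  have h := congrFun (dens_lin (r := r) L hg hg α 0) x
  simp only [zero_mul, add_zero] at h
  exact h

theorem tbv : S_V := by
  intro r l k hr hr2 hl _ hY _ s hs0 hs
  obtain ⟨L, hL⟩ : ∃ L, L = List.replicate k (1 / Real.sqrt k) := ⟨_, rfl⟩
  obtain ⟨t, ht⟩ : ∃ t, t = (Real.sqrt (2 + l ^ 2) - Real.sqrt (2 + s)) /
      (Real.sqrt (2 + l ^ 2) - Real.sqrt 2) := ⟨_, rfl⟩
  have hl2 : 0 < l ^ 2 := by positivity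
  have hM : Real.sqrt 2 < Real.sqrt (2 + l ^ 2) := Real.sqrt_lt_sqrt (by norm_num) (by linarith)
  have hms : Real.sqrt 2 ≤ Real.sqrt (2 + s) := Real.sqrt_le_sqrt (by linarith)
  have hmM : Real.sqrt (2 + s) ≤ Real.sqrt (2 + l ^ 2) := Real.sqrt_le_sqrt (by linarith)
  have ht0 : 0 ≤ t := by
    rw [ht]
    exact div_nonneg (by linarith) (by linarith)
  have ht1 : 0 ≤ 1 - t := by
    rw [ht, sub_nonneg, div_le_one (by linarith)]
    linarith
  have hp := pt_cont r
  have c1 : Continuous fun z : ℝ => pt r (Real.sqrt s * z) := by fun_prop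
  have c2 : Continuous fun _ : ℝ => pt r 0 := continuous_const
  have c3 : Continuous fun z : ℝ => pt r (l * z) := by fun_prop
  have c4 : Continuous fun z : ℝ => Real.sqrt (2 + s) * pt r (Real.sqrt s * z) := by fun_prop
  have c5 : Continuous fun z : ℝ => t * Real.sqrt 2 * pt r 0 +
      (1 - t) * Real.sqrt (2 + l ^ 2) * pt r (l * z) := by fun_prop
  have h1 : ∀ z, Real.sqrt (2 + s) * pt r (Real.sqrt s * z) ≤
      t * Real.sqrt 2 * pt r 0 + (1 - t) * Real.sqrt (2 + l ^ 2) * pt r (l * z) := by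
    intro z
    have h := point hr hr2 hl hY hs0 hs z
    rw [← ht] at h
    linarith
  have h2 := dens_mono hr L c4 c5 h1 0
  rw [dens_smul' L c1, congrFun (dens_lin (r := r) L c2 c3 (t * Real.sqrt 2)
    ((1 - t) * Real.sqrt (2 + l ^ 2))) 0] at h2
  have f1 : FF r k s = Real.sqrt (2 + s) * dens r L (fun z => pt r (Real.sqrt s * z)) 0 := by
    rw [hL]
    rfl
  have f2 : FF r k 0 = Real.sqrt 2 * dens r L (fun _ => pt r 0) 0 := by
    rw [hL]
    unfold FF
    rw [add_zero]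
    congr 3
    funext z
    rw [Real.sqrt_zero, zero_mul]
  have f3 : FF r k (l ^ 2) = Real.sqrt (2 + l ^ 2) * dens r L (fun z => pt r (l * z)) 0 := by
    rw [hL]
    unfold FF
    rw [Real.sqrt_sq hl.le]
  have h3 : FF r k s ≤ t * FF r k 0 + (1 - t) * FF r k (l ^ 2) := by
    rw [f1, f2, f3]
    linarith
  refine h3.trans ?_
  have g1 := mul_le_mul_of_nonneg_left (le_max_left (FF r k 0) (FF r k (l ^ 2))) ht0
  have g2 := mul_le_mul_of_nonneg_left (le_max_right (FF r k 0) (FF r k (l ^ 2))) ht1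
  linarith

end Pool.Agent.H157.TBV
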